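import Mathlib
import Pool.Agent.H.MP_f2fe1e_co.C

set_option autoImplicit false

namespace Pool.Agent.Results.MP_f2fe1e_co.NotClosed

open Pool.Agent.H.MP_f2fe1e_co.A Pool.Agent.H.MP_f2fe1e_co.C

theorem result (k : ℕ) (hk : 1 ≤ k) :
    (∃ (V : Type) (_ : Finite V) (G : SimpleGraph V), KInt k G ∧ ¬ KInt k Gᶜ) ∧
    (∃ (V : Type) (_ : Finite V) (G : SimpleGraph V), OrK k G ∧ ¬ OrK k Gᶜ) ∧
    (∃ (V : Type) (_ : Finite V) (G : SimpleGraph V), AndK k G ∧ ¬ AndK k Gᶜ) := by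
  have o : ∀ (V : Type) (G : SimpleGraph V), KInt k G → OrK k G :=
    fun V G ⟨t, I, a, _, b⟩ => ⟨fun _ => t, I, a, b⟩
  obtain ⟨r, h1, h2⟩ := orr k
  obtain ⟨s, ⟨t, I, a, b⟩, h3⟩ := andd k
  have : Nonempty (Fin k) := ⟨⟨0, hk⟩⟩
  exact ⟨⟨_, inferInstance, _, h1, fun h => h2 (o _ _ h)⟩, ⟨_, inferInstance, _, o _ _ h1, h2⟩,
    _, inferInstance, _, ⟨fun _ => t, fun _ => I, fun _ => a, fun u v e => by simpa using b u v e⟩,
    h3⟩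

end Pool.Agent.Results.MP_f2fe1e_co.NotClosed
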